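import Mathlib

/-!
# The gcd recursion for Goldbach pairs: a Farey type lower bound for the time of descent
-/

set_option autoImplicit false

namespace Pool.Agent.R330.GL

open Finset

/-- the second argument of the gcd -/
def V (N : ℕ) (n : ℕ) : ℤ := (N : ℤ) - (-1) ^ n * ((N : ℤ) - n)

lemma V_even (N : ℕ) {n : ℕ} (hn : n % 2 = 0) : V N n = n := by
  have : Even n := Nat.even_iff.mpr hn
  simp only [V]; rw [this.neg_one_pow]; ring

lemma V_odd (N : ℕ) {n : ℕ} (hn : n % 2 = 1) : V N n = 2 * N - n := by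
  have : Odd n := Nat.odd_iff.mpr hn
  simp only [V]; rw [this.neg_one_pow]; ring

/-- the data of the descent: `γ n` is the gcd subtracted at step `n` -/
structure Des (N f : ℕ) (a γ : ℕ → ℤ) : Prop where
  one : a 1 = (N : ℤ) - 2
  step : ∀ n, 2 ≤ n → n ≤ f → a n = a (n - 1) - γ n
  pos : ∀ n, 2 ≤ n → n ≤ f → 1 ≤ γ n
  dvda : ∀ n, 2 ≤ n → n ≤ f → γ n ∣ a (n - 1)
  dvdV : ∀ n, 2 ≤ n → n ≤ f → γ n ∣ V N n
  zero : a f = 0
  ge : 2 ≤ f
  nn : ∀ n, 1 ≤ n → n ≤ f → 0 ≤ a n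

variable {N f : ℕ} {a γ : ℕ → ℤ}

lemma Des.diff (h : Des N f a γ) {n : ℕ} (hn : 1 ≤ n) :
    ∀ k, n ≤ k → k ≤ f → ((k : ℤ) - n) ≤ a n - a k := by
  intro k hk
  induction k, hk using Nat.le_induction with
  | base => intro _; simp
  | succ k hk ih =>
    intro hkf
    have h1 := ih (by omega)
    have h2 := h.step (k + 1) (by omega) hkf
    have h3 := h.pos (k + 1) (by omega) hkf
    rw [Nat.add_sub_cancel] at h2
    push_cast
    linarith

lemma Des.up (h : Des N f a γ) {n : ℕ} (hn : 1 ≤ n) (hnf : n ≤ f) :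
    a n ≤ (N : ℤ) - 1 - n := by
  have h1 := h.diff le_rfl n hn hnf
  have h2 := h.one
  push_cast at h1
  linarith

lemma Des.sumb (h : Des N f a γ) (c B : ℤ) {n : ℕ} (hn : 1 ≤ n) :
    ∀ k, n ≤ k → k ≤ f → (∀ j, n < j → j ≤ k → γ j * c ≤ B) →
      (a n - a k) * c ≤ ((k : ℤ) - n) * B := by
  intro k hk
  induction k, hk using Nat.le_induction with
  | base => intro _ _; simp
  | succ k hk ih =>
    intro hkf hj
    have h1 := ih (by omega) (fun j hj1 hj2 => hj j hj1 (by omega))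
    have h2 := h.step (k + 1) (by omega) hkf
    have h3 := hj (k + 1) (by omega) le_rfl
    rw [Nat.add_sub_cancel] at h2
    push_cast
    rw [h2]
    have e1 : (a n - (a k - γ (k + 1))) * c = (a n - a k) * c + γ (k + 1) * c := by ring
    have e2 : ((k : ℤ) + 1 - n) * B = ((k : ℤ) - n) * B + B := by ring
    rw [e1, e2]
    linarith

lemma Des.even_le (h : Des N f a γ) {n : ℕ} (hn : 2 ≤ n) (hnf : n ≤ f) (he : n % 2 = 0) :
    γ n ≤ n := by
  have h1 := h.dvdV n hn hnf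
  rw [V_even N he] at h1
  exact Int.le_of_dvd (by exact_mod_cast (by omega : 0 < n)) h1

lemma Des.odd_le (h : Des N f a γ) {n : ℕ} (hn : 2 ≤ n) (hnf : n ≤ f) (ho : n % 2 = 1) :
    γ n ≤ 2 * N - n - 2 * a (n - 1) := by
  have h1 := h.dvdV n hn hnf
  rw [V_odd N ho] at h1
  have h2 := h.dvda n hn hnf
  have h3 : γ n ∣ 2 * (N : ℤ) - n - 2 * a (n - 1) := dvd_sub h1 (Dvd.dvd.mul_left h2 2)
  refine Int.le_of_dvd ?_ h3
  have h4 := h.up (n := n - 1) (by omega) (by omega)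
  have h5 : ((n - 1 : ℕ) : ℤ) = (n : ℤ) - 1 := by omega
  rw [h5] at h4
  have : (2 : ℤ) ≤ n := by exact_mod_cast hn
  linarith

lemma Des.key (h : Des N f a γ) {n m : ℕ} (hn : 2 ≤ n) (hm : m ≤ f) (hnm : n < m)
    (hno : n % 2 = 1) (hmo : m % 2 = 1) :
    γ n * γ m ≤ 2 * N * (a n - a (m - 1)) := by
  have hs := h.diff (n := n) (by omega) (m - 1) (by omega) (by omega)
  have hm1 : ((m - 1 : ℕ) : ℤ) = (m : ℤ) - 1 := by omega
  rw [hm1] at hs
  have hA := h.up (n := n) (by omega) (by omega)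
  have hA0 := h.nn n (by omega) (by omega)
  have d1 : γ n ∣ a n := by
    rw [h.step n hn (by omega)]
    exact dvd_sub (h.dvda n hn (by omega)) dvd_rfl
  have d2 := h.dvdV n hn (by omega)
  rw [V_odd N hno] at d2
  have d3 := h.dvda m (by omega) hm
  have d4 := h.dvdV m (by omega) hm
  rw [V_odd N hmo] at d4
  have d5 : γ n * γ m ∣ a n * (2 * N - m) - a (m - 1) * (2 * N - n) := by
    apply dvd_sub
    · exact mul_dvd_mul d1 d4
    · rw [mul_comm (γ n)]
      exact mul_dvd_mul d3 d2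
  have hw : (2 : ℤ) ≤ (m : ℤ) - n := by omega
  have hN0 : (0 : ℤ) ≤ N := by positivity
  have hn0 : (2 : ℤ) ≤ n := by exact_mod_cast hn
  set s : ℤ := a n - a (m - 1) with hsd
  have hs' : a (m - 1) = a n - s := by rw [hsd]; ring
  have e1 : a n * (2 * N - m) - a (m - 1) * (2 * N - n) =
      s * (2 * N - n) - a n * ((m : ℤ) - n) := by
    rw [hs']; ring
  rw [e1] at d5
  have hnN : (n : ℤ) ≤ N := by linarith
  have hpos : 0 < s * (2 * N - n) - a n * ((m : ℤ) - n) := by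
    have h1 : ((m : ℤ) - 1 - n) * (2 * N - n) ≤ s * (2 * N - n) :=
      mul_le_mul_of_nonneg_right hs (by linarith)
    have h2 : a n * ((m : ℤ) - n) ≤ ((N : ℤ) - 1 - n) * ((m : ℤ) - n) :=
      mul_le_mul_of_nonneg_right hA (by linarith)
    have h3 : ((m : ℤ) - 1 - n) * (2 * N - n) - ((N : ℤ) - 1 - n) * ((m : ℤ) - n) =
        ((m : ℤ) - n) * (N + 1) - 2 * N + n := by ring
    have h4 : 2 * ((N : ℤ) + 1) ≤ ((m : ℤ) - n) * (N + 1) :=
      mul_le_mul_of_nonneg_right hw (by linarith)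
    linarith
  have h5 := Int.le_of_dvd hpos d5
  have hs0 : 0 ≤ s := by linarith
  have h6 : 0 ≤ a n * ((m : ℤ) - n) := mul_nonneg hA0 (by linarith)
  have h7 : 0 ≤ s * n := mul_nonneg hs0 (by linarith)
  nlinarith

/-- between two large gcds at odd steps there is a third one -/
lemma Des.mid (h : Des N f a γ) {n m : ℕ} (hn : 2 ≤ n) (hm : m ≤ f) (hnm : n < m)
    (hno : n % 2 = 1) (hmo : m % 2 = 1) (hbig : 2 * (N : ℤ) * f ^ 2 ≤ γ n * γ m)
    (hN : 0 < N) :
    ∃ j, n < j ∧ j < m ∧ j % 2 = 1 ∧ γ n * γ m ≤ γ j * (2 * N * f) := by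
  by_contra hcon
  push Not at hcon
  have hfp : (0 : ℤ) < f := by
    have := h.ge
    exact_mod_cast (by omega : 0 < f)
  have hNp : (0 : ℤ) < N := by exact_mod_cast hN
  have hP : 0 < γ n * γ m := lt_of_lt_of_le (by positivity) hbig
  have hs := h.sumb (2 * N * f) (γ n * γ m) (n := n) (by omega) (m - 1) (by omega) (by omega) (by
    intro j hj1 hj2
    rcases Nat.mod_two_eq_zero_or_one j with he | ho
    · have h1 := h.even_le (n := j) (by omega) (by omega) he
      have h2 : (j : ℤ) ≤ f := by exact_mod_cast (by omega : j ≤ f)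
      have h3 : γ j * (2 * N * f) ≤ f * (2 * N * f) :=
        mul_le_mul_of_nonneg_right (h1.trans h2) (by positivity)
      calc γ j * (2 * N * f) ≤ f * (2 * N * f) := h3
        _ = 2 * (N : ℤ) * f ^ 2 := by ring
        _ ≤ γ n * γ m := hbig
    · exact (hcon j hj1 (by omega) ho).le)
  have hk := h.key hn hm hnm hno hmo
  have hm1 : ((m - 1 : ℕ) : ℤ) = (m : ℤ) - 1 := by omega
  rw [hm1] at hs
  have h4 : γ n * γ m * f ≤ 2 * N * (a n - a (m - 1)) * f :=
    mul_le_mul_of_nonneg_right hk hfp.le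
  have h5 : 2 * N * (a n - a (m - 1)) * f = (a n - a (m - 1)) * (2 * N * f) := by ring
  have h6 : (m : ℤ) ≤ f := by exact_mod_cast hm
  have h7 : (2 : ℤ) ≤ n := by exact_mod_cast hn
  have h8 : ((m : ℤ) - 1 - n) * (γ n * γ m) < f * (γ n * γ m) :=
    mul_lt_mul_of_pos_right (by linarith) hP
  nlinarith

/-- the pairs counted in the Farey tree -/
def S (P Q K : ℕ) : Finset (ℕ × ℕ) :=
  ((Icc 1 K) ×ˢ (Icc 1 K)).filter (fun t => Nat.Coprime t.1 t.2 ∧ t.1 * P + t.2 * Q ≤ K)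

lemma mem_S {P Q K : ℕ} (hP : 1 ≤ P) (hQ : 1 ≤ Q) {t : ℕ × ℕ} :
    t ∈ S P Q K ↔ 1 ≤ t.1 ∧ 1 ≤ t.2 ∧ Nat.Coprime t.1 t.2 ∧ t.1 * P + t.2 * Q ≤ K := by
  unfold S
  rw [mem_filter, mem_product, mem_Icc, mem_Icc]
  constructor
  · rintro ⟨⟨h1, h2⟩, h3, h4⟩
    exact ⟨h1.1, h2.1, h3, h4⟩
  · rintro ⟨h1, h2, h3, h4⟩
    have h5 : t.1 ≤ t.1 * P := Nat.le_mul_of_pos_right _ hP
    have h6 : t.2 ≤ t.2 * Q := Nat.le_mul_of_pos_right _ hQ
    exact ⟨⟨⟨h1, by omega⟩, ⟨h2, by omega⟩⟩, h3, h4⟩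

lemma card_S_le (P Q K : ℕ) (hP : 1 ≤ P) (hQ : 1 ≤ Q) :
    (S P Q K).card ≤ 1 + (S P (P + Q) K).card + (S (P + Q) Q K).card := by
  classical
  have hsub : S P Q K ⊆ ({(1, 1)} ∪ (S P (P + Q) K).image (fun t => (t.1 + t.2, t.2))) ∪
      (S (P + Q) Q K).image (fun t => (t.1, t.1 + t.2)) := by
    rintro ⟨x, y⟩ ht
    rw [mem_S hP hQ] at ht
    obtain ⟨h1, h2, h3, h4⟩ := ht
    simp only at h1 h2 h3 h4
    rcases lt_trichotomy x y with hlt | heq | hgt
    · refine mem_union_right _ (mem_image.mpr ⟨(x, y - x), ?_, ?_⟩)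
      · rw [mem_S (by omega) hQ]
        refine ⟨h1, by simp only; omega, ?_, ?_⟩
        · simp only
          exact (Nat.coprime_sub_self_right hlt.le).mpr h3
        · simp only
          obtain ⟨d, rfl⟩ := Nat.exists_eq_add_of_le hlt.le
          rw [Nat.add_sub_cancel_left]
          nlinarith
      · simp only [Prod.mk.injEq, true_and]
        omega
    · subst heq
      rw [Nat.coprime_self] at h3
      subst h3
      exact mem_union_left _ (mem_union_left _ (mem_singleton_self _))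
    · refine mem_union_left _ (mem_union_right _ (mem_image.mpr ⟨(x - y, y), ?_, ?_⟩))
      · rw [mem_S hP (by omega)]
        refine ⟨by simp only; omega, h2, ?_, ?_⟩
        · simp only
          exact (Nat.coprime_sub_self_left hgt.le).mpr h3
        · simp only
          obtain ⟨d, rfl⟩ := Nat.exists_eq_add_of_le hgt.le
          rw [Nat.add_sub_cancel_left]
          nlinarith
      · simp only [Prod.mk.injEq, and_true]
        omega
  calc (S P Q K).card ≤ _ := card_le_card hsub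
    _ ≤ _ := card_union_le _ _
    _ ≤ (1 + (S P (P + Q) K).card) + (S (P + Q) Q K).card := by
      refine add_le_add ((card_union_le _ _).trans (add_le_add ?_ card_image_le)) card_image_le
      rw [card_singleton]

lemma S_empty (P Q K : ℕ) (hP : 1 ≤ P) (hQ : 1 ≤ Q) (hK : K < P + Q) : (S P Q K).card = 0 := by
  rw [card_eq_zero]
  apply eq_empty_of_forall_notMem
  intro t ht
  rw [mem_S hP hQ] at ht
  have h5 : P ≤ t.1 * P := Nat.le_mul_of_pos_left _ ht.1
  have h6 : Q ≤ t.2 * Q := Nat.le_mul_of_pos_left _ ht.2.1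
  omega

/-- the Farey tree of large gcds -/
lemma Des.farey (h : Des N f a γ) (hN : 0 < N) (b : ℤ) (hb : 1 ≤ b) (K : ℕ)
    (hbK : b ^ K ≤ 2 * N) :
    ∀ r P Q : ℕ, K < P + Q + r → 1 ≤ P → 1 ≤ Q → ∀ n m : ℕ, 2 ≤ n → m ≤ f → n < m →
      n % 2 = 1 → m % 2 = 1 → 2 * (N : ℤ) * f ≤ γ n * b ^ P → 2 * (N : ℤ) * f ≤ γ m * b ^ Q →
      (S P Q K).card + 1 ≤ m - n := by
  intro r
  induction r with
  | zero =>
    intro P Q hK hP hQ n m hn hm hnm _ _ _ _
    rw [S_empty P Q K hP hQ (by omega)]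
    omega
  | succ r ih =>
    intro P Q hK hP hQ n m hn hm hnm hno hmo h1 h2
    rcases Nat.lt_or_ge K (P + Q) with hlt | hge
    · rw [S_empty P Q K hP hQ hlt]
      omega
    have hb0 : 0 < b := by linarith
    have hf0 : (0 : ℤ) < f := by
      have := h.ge
      exact_mod_cast (by omega : 0 < f)
    have hN0 : (0 : ℤ) < N := by exact_mod_cast hN
    have hW : 0 < 2 * (N : ℤ) * f := by positivity
    have hgn := h.pos n hn (by omega)
    have hgm := h.pos m (by omega) hm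
    have hprod : (2 * (N : ℤ) * f) * (2 * (N : ℤ) * f) ≤ γ n * γ m * b ^ (P + Q) := by
      calc (2 * (N : ℤ) * f) * (2 * (N : ℤ) * f) ≤ (γ n * b ^ P) * (γ m * b ^ Q) :=
            mul_le_mul h1 h2 hW.le (by positivity)
        _ = γ n * γ m * b ^ (P + Q) := by rw [pow_add]; ring
    have hbPQ : b ^ (P + Q) ≤ 2 * N := (pow_le_pow_right₀ hb hge).trans hbK
    have hgg : 0 ≤ γ n * γ m := by positivity
    have hbig : 2 * (N : ℤ) * f ^ 2 ≤ γ n * γ m := by
      have h3 : (2 * (N : ℤ) * f) * (2 * (N : ℤ) * f) ≤ γ n * γ m * (2 * N) :=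
        hprod.trans (mul_le_mul_of_nonneg_left hbPQ hgg)
      have h4 : (2 * (N : ℤ) * f ^ 2) * (2 * N) ≤ γ n * γ m * (2 * N) := by
        calc (2 * (N : ℤ) * f ^ 2) * (2 * N) = (2 * (N : ℤ) * f) * (2 * (N : ℤ) * f) := by ring
          _ ≤ _ := h3
      exact le_of_mul_le_mul_right h4 (by positivity)
    obtain ⟨j, hj1, hj2, hjo, hj⟩ := h.mid hn hm hnm hno hmo hbig hN
    have hjW : 2 * (N : ℤ) * f ≤ γ j * b ^ (P + Q) := by
      have h5 : (2 * (N : ℤ) * f) * (2 * (N : ℤ) * f) ≤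
          (γ j * b ^ (P + Q)) * (2 * (N : ℤ) * f) := by
        calc (2 * (N : ℤ) * f) * (2 * (N : ℤ) * f) ≤ γ n * γ m * b ^ (P + Q) := hprod
          _ ≤ γ j * (2 * N * f) * b ^ (P + Q) :=
            mul_le_mul_of_nonneg_right hj (by positivity)
          _ = (γ j * b ^ (P + Q)) * (2 * (N : ℤ) * f) := by ring
      exact le_of_mul_le_mul_right h5 hW
    have i1 := ih P (P + Q) (by omega) hP (by omega) n j hn (by omega) hj1 hno hjo h1 hjW
    have i2 := ih (P + Q) Q (by omega) (by omega) hQ j m (by omega) hm hj2 hjo hmo hjW h2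
    have i3 := card_S_le P Q K hP hQ
    omega

end Pool.Agent.R330.GL
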