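import Mathlib
import Pool.Agent.R330.GL.Core

/-!
# The gcd recursion for Goldbach pairs: two large gcds, and the count of coprime pairs
-/

set_option autoImplicit false

namespace Pool.Agent.R330.GL

open Finset

variable {N f : ℕ} {a γ : ℕ → ℤ}

/-- two gcds of size at least `N / (32 f)` at odd steps -/
lemma Des.top (h : Des N f a γ) (hf1 : 64 * f ^ 2 ≤ N) (hf2 : 16 * (f + 4) ≤ N) :
    ∃ n m : ℕ, 2 ≤ n ∧ m ≤ f ∧ n < m ∧ n % 2 = 1 ∧ m % 2 = 1 ∧
      (N : ℤ) ≤ γ n * (32 * f) ∧ (N : ℤ) ≤ γ m * (32 * f) := by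
  classical
  have hge := h.ge
  have hf0 : (0 : ℤ) < f := by exact_mod_cast (by omega : 0 < f)
  have hF1 : 64 * (f : ℤ) ^ 2 ≤ N := by exact_mod_cast hf1
  have hF2 : 16 * ((f : ℤ) + 4) ≤ N := by exact_mod_cast hf2
  have hex : ∃ k, 1 ≤ k ∧ k ≤ f ∧ (N : ℤ) ≤ 16 * ((N : ℤ) - 2 - a k) :=
    ⟨f, by omega, le_rfl, by rw [h.zero]; linarith⟩
  set n1 := Nat.find hex with hn1
  obtain ⟨hk1, hkf, hk2⟩ := Nat.find_spec hex
  rw [← hn1] at hk1 hkf hk2
  have hn12 : 2 ≤ n1 := by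
    by_contra hcon
    have : n1 = 1 := by omega
    rw [this, h.one] at hk2
    linarith
  have hprev : 16 * ((N : ℤ) - 2 - a (n1 - 1)) < N := by
    by_contra hcon
    exact Nat.find_min hex (m := n1 - 1) (by omega) ⟨by omega, by omega, by linarith⟩
  have hstep := h.step n1 hn12 hkf
  have hn1f : (n1 : ℤ) ≤ f := by exact_mod_cast hkf
  have hg1 : γ n1 ≤ 2 * ((N : ℤ) - 2 - a (n1 - 1)) + f + 4 := by
    have hup := h.up (n := n1 - 1) (by omega) (by omega)
    have hc : ((n1 - 1 : ℕ) : ℤ) = (n1 : ℤ) - 1 := by omega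
    rw [hc] at hup
    have hn1' : (2 : ℤ) ≤ n1 := by exact_mod_cast hn12
    rcases Nat.mod_two_eq_zero_or_one n1 with he | ho
    · have := h.even_le hn12 hkf he
      linarith
    · have := h.odd_le hn12 hkf ho
      linarith
  have hquart : 4 * ((N : ℤ) - 2 - a n1) ≤ N := by
    rw [hstep]
    linarith
  -- a general small step bound
  have hsmall : ∀ j, 2 ≤ j → j ≤ f → j % 2 = 0 → γ j * (32 * f) ≤ N := by
    intro j hj1 hj2 he
    have h1 := h.even_le hj1 hj2 he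
    have h2 : (j : ℤ) ≤ f := by exact_mod_cast hj2
    have h3 : γ j * (32 * f) ≤ f * (32 * f) :=
      mul_le_mul_of_nonneg_right (h1.trans h2) (by positivity)
    nlinarith
  obtain ⟨n, hn2, hnn1, hno, hnbig⟩ : ∃ n, 2 ≤ n ∧ n ≤ n1 ∧ n % 2 = 1 ∧
      (N : ℤ) ≤ γ n * (32 * f) := by
    by_contra hcon
    push Not at hcon
    have h1 := h.sumb (32 * f) N (n := 1) le_rfl n1 hk1 hkf (by
      intro j hj1 hj2
      rcases Nat.mod_two_eq_zero_or_one j with he | ho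
      · exact hsmall j (by omega) (by omega) he
      · exact (hcon j (by omega) hj2 ho).le)
    rw [h.one] at h1
    push_cast at h1
    have h2 : ((n1 : ℤ) - 1) * N ≤ ((f : ℤ) - 1) * N :=
      mul_le_mul_of_nonneg_right (by linarith) (by positivity)
    have h3 : (N : ℤ) * (2 * f) ≤ 16 * ((N : ℤ) - 2 - a n1) * (2 * f) :=
      mul_le_mul_of_nonneg_right hk2 (by positivity)
    have hNp : (0 : ℤ) < N := by linarith
    nlinarith
  obtain ⟨m, hmn1, hmf, hmo, hmbig⟩ : ∃ m, n1 < m ∧ m ≤ f ∧ m % 2 = 1 ∧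
      (N : ℤ) ≤ γ m * (32 * f) := by
    by_contra hcon
    push Not at hcon
    have h1 := h.sumb (32 * f) N (n := n1) hk1 f hkf le_rfl (by
      intro j hj1 hj2
      rcases Nat.mod_two_eq_zero_or_one j with he | ho
      · exact hsmall j (by omega) (by omega) he
      · exact (hcon j (by omega) hj2 ho).le)
    rw [h.zero] at h1
    have h2 : ((f : ℤ) - n1) * N ≤ (f : ℤ) * N :=
      mul_le_mul_of_nonneg_right (by linarith) (by positivity)
    have h4 : (N : ℤ) ≤ 2 * a n1 := by linarith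
    have h3 : (N : ℤ) * (16 * f) ≤ 2 * a n1 * (16 * f) :=
      mul_le_mul_of_nonneg_right h4 (by positivity)
    have hNp : (0 : ℤ) < N := by linarith
    have h5 : (0 : ℤ) < f * N := by positivity
    nlinarith
  exact ⟨n, m, hn2, hmf, by omega, hno, hmo, hnbig, hmbig⟩

lemma sum_inv_sq (M : ℕ) (hM : 2 ≤ M) :
    ∑ d ∈ Icc 2 M, (1 : ℝ) / (d : ℝ) ^ 2 ≤ 3 / 4 - 1 / M := by
  induction M, hM using Nat.le_induction with
  | base => norm_num
  | succ M hM ih =>
    rw [sum_Icc_succ_top (by omega)]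
    have hM0 : (0 : ℝ) < M := by exact_mod_cast (by omega : 0 < M)
    push_cast
    have h1 : (1 : ℝ) / ((M : ℝ) + 1) ^ 2 ≤ 1 / M - 1 / (M + 1) := by
      rw [div_sub_div _ _ hM0.ne' (by positivity), div_le_div_iff₀ (by positivity) (by positivity)]
      nlinarith
    linarith

/-- at least a quarter of the pairs are coprime -/
lemma card_S_one (K M : ℕ) (hM : 1 ≤ M) (hMK : 2 * M ≤ K) :
    ((M : ℝ)) ^ 2 / 4 ≤ ((S 1 1 K).card : ℝ) := by
  classical
  set B : Finset (ℕ × ℕ) := (Icc 1 M) ×ˢ (Icc 1 M) with hB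
  have hBc : (B.card : ℝ) = (M : ℝ) ^ 2 := by
    rw [hB, card_product, Nat.card_Icc]
    push_cast
    ring
  have hsub : B ⊆ S 1 1 K ∪ (Icc 2 M).biUnion
      (fun d => ((Icc 1 (M / d)) ×ˢ (Icc 1 (M / d))).image (fun t => (d * t.1, d * t.2))) := by
    rintro ⟨x, y⟩ ht
    rw [hB, mem_product, mem_Icc, mem_Icc] at ht
    obtain ⟨⟨h1, h2⟩, h3, h4⟩ := ht
    simp only at h1 h2 h3 h4
    by_cases hc : Nat.Coprime x y
    · apply mem_union_left
      rw [mem_S le_rfl le_rfl]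
      exact ⟨h1, h3, hc, by simp only; omega⟩
    · apply mem_union_right
      set d := Nat.gcd x y with hd
      have hd0 : 0 < d := Nat.gcd_pos_of_pos_left _ (by omega)
      have hd1 : d ≠ 1 := hc
      have hdx : d ∣ x := Nat.gcd_dvd_left _ _
      have hdy : d ∣ y := Nat.gcd_dvd_right _ _
      have hdM : d ≤ M := (Nat.le_of_dvd (by omega) hdx).trans h2
      rw [mem_biUnion]
      refine ⟨d, mem_Icc.mpr ⟨by omega, hdM⟩, mem_image.mpr ⟨(x / d, y / d), ?_, ?_⟩⟩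
      · rw [mem_product, mem_Icc, mem_Icc]
        exact ⟨⟨Nat.div_pos (Nat.le_of_dvd (by omega) hdx) hd0, Nat.div_le_div_right h2⟩,
          ⟨Nat.div_pos (Nat.le_of_dvd (by omega) hdy) hd0, Nat.div_le_div_right h4⟩⟩
      · simp only [Prod.mk.injEq]
        exact ⟨Nat.mul_div_cancel' hdx, Nat.mul_div_cancel' hdy⟩
  have hcard : (B.card : ℝ) ≤ (S 1 1 K).card + ∑ d ∈ Icc 2 M, ((M / d : ℕ) : ℝ) ^ 2 := by
    have h1 : B.card ≤ (S 1 1 K).card + ∑ d ∈ Icc 2 M, (M / d) ^ 2 := by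
      refine (card_le_card hsub).trans ((card_union_le _ _).trans (Nat.add_le_add_left ?_ _))
      refine card_biUnion_le.trans (sum_le_sum fun d _ => card_image_le.trans ?_)
      rw [card_product, Nat.card_Icc]
      simp only [Nat.add_sub_cancel]
      exact (sq _).ge
    exact_mod_cast h1
  have hsum : ∑ d ∈ Icc 2 M, ((M / d : ℕ) : ℝ) ^ 2 ≤ (M : ℝ) ^ 2 * (3 / 4) := by
    calc ∑ d ∈ Icc 2 M, ((M / d : ℕ) : ℝ) ^ 2
        ≤ ∑ d ∈ Icc 2 M, (M : ℝ) ^ 2 * (1 / (d : ℝ) ^ 2) := by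
          refine sum_le_sum fun d hd => ?_
          have h1 : ((M / d : ℕ) : ℝ) ≤ (M : ℝ) / d := Nat.cast_div_le
          calc ((M / d : ℕ) : ℝ) ^ 2 ≤ ((M : ℝ) / d) ^ 2 :=
                pow_le_pow_left₀ (by positivity) h1 2
            _ = (M : ℝ) ^ 2 * (1 / (d : ℝ) ^ 2) := by rw [div_pow]; ring
      _ = (M : ℝ) ^ 2 * ∑ d ∈ Icc 2 M, 1 / (d : ℝ) ^ 2 := by rw [mul_sum]
      _ ≤ (M : ℝ) ^ 2 * (3 / 4) := by
          apply mul_le_mul_of_nonneg_left _ (by positivity)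
          rcases Nat.lt_or_ge M 2 with h | h
          · rw [Icc_eq_empty (by omega), sum_empty]
            norm_num
          · have h1 := sum_inv_sq M h
            have h2 : (0 : ℝ) ≤ 1 / M := by positivity
            linarith
  rw [hBc] at hcard
  linarith

/-- the lower bound in a finite form -/
lemma Des.finite (h : Des N f a γ) (hf1 : 64 * f ^ 2 ≤ N) (hf2 : 16 * (f + 4) ≤ N)
    (K M : ℕ) (hM : 1 ≤ M) (hMK : 2 * M ≤ K) (hK : ((64 : ℤ) * f ^ 2) ^ K ≤ 2 * N) :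
    ((M : ℝ)) ^ 2 / 4 ≤ (f : ℝ) := by
  have hge := h.ge
  have hN : 0 < N := by omega
  have hf0 : (0 : ℤ) < f := by exact_mod_cast (by omega : 0 < f)
  obtain ⟨n, m, hn, hm, hnm, hno, hmo, h1, h2⟩ := h.top hf1 hf2
  have hb : (1 : ℤ) ≤ 64 * f ^ 2 := by nlinarith
  have e : ∀ k, (N : ℤ) ≤ γ k * (32 * f) → 2 * (N : ℤ) * f ≤ γ k * (64 * (f : ℤ) ^ 2) ^ 1 := by
    intro k hk
    have := mul_le_mul_of_nonneg_right hk (show (0 : ℤ) ≤ 2 * f by positivity)
    calc 2 * (N : ℤ) * f = N * (2 * f) := by ring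
      _ ≤ γ k * (32 * f) * (2 * f) := this
      _ = γ k * (64 * (f : ℤ) ^ 2) ^ 1 := by ring
  have h3 := h.farey hN (64 * f ^ 2) hb K hK K 1 1 (by omega) le_rfl le_rfl n m hn hm hnm hno hmo
    (e n h1) (e m h2)
  have h4 := card_S_one K M hM hMK
  have h5 : (S 1 1 K).card ≤ f := by omega
  exact h4.trans (by exact_mod_cast h5)

end Pool.Agent.R330.GL
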